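import Pool.Agent.H65.RHX.Base

/-!
# Row SA of the board rhx: the elements of the stacked set
-/

set_option autoImplicit false

namespace Pool.Agent.H65.RHX

open Pool.Agent.H54.RH

theorem pf_SA : T_SA := by
  intro n b M q _ hF g
  rw [mem_stk M q hF g, mem_blk q hF.1 g]
  constructor
  · rintro (⟨h, hM, hn, rfl⟩ | ⟨u, w, hu, hw, huw, hu0, rfl⟩)
    · exact Or.inl ⟨h, hM, fun w hw e => hn ⟨w, hw, e⟩, rfl⟩
    · exact Or.inr ⟨⟨u, w, hu, hw, huw, rfl⟩, fun e => hu0 ((Bw_at_zero q huw).mp e)⟩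
  · rintro (⟨h, hM, hn, rfl⟩ | ⟨⟨u, w, hu, hw, huw, rfl⟩, h0⟩)
    · exact Or.inl ⟨h, hM, fun ⟨w, hw, e⟩ => hn w hw e, rfl⟩
    · exact Or.inr ⟨u, w, hu, hw, huw, fun e => h0 ((Bw_at_zero q huw).mpr e), rfl⟩

end Pool.Agent.H65.RHX
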