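import Pool.Agent.H65.RHX.Base

/-!
# Row SL of the board rhx: the links of the vertices of the stacked set
-/

set_option autoImplicit false

namespace Pool.Agent.H65.RHX

open Pool.Agent.H54.RH

variable {n : ℕ}

/-- vertices of a word of the block: letters at the four places -/
theorem vx_Bw (q : W n) {u w : Fin (n + 1)} (huw : u ≠ w) {v : W (n + 1)} :
    IsVx (Bw q u w) v ↔ ∃ z y, Qc q z = 1 ∧ Qc q y = 1 ∧ z ≠ y ∧ z ≠ u ∧ z ≠ w ∧ y ≠ u ∧ y ≠ w ∧
      v = Function.update (Function.update (Bw q u w) z 0) y 2 := by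
  have hne : ∀ x, Bw q u w x = 1 ↔ Qc q x = 1 ∧ x ≠ u ∧ x ≠ w := by
    intro x
    rw [Bw_eq]
    split_ifs with h1 h2
    · subst h1; simp
    · subst h2; simp
    · simp [h1, h2]
  constructor
  · rintro ⟨z, y, hz, hy, hzy, rfl⟩
    rw [hne] at hz hy
    exact ⟨z, y, hz.1, hy.1, hzy, hz.2.1, hz.2.2, hy.2.1, hy.2.2, rfl⟩
  · rintro ⟨z, y, hz, hy, hzy, h1, h2, h3, h4, rfl⟩
    exact ⟨z, y, (hne z).mpr ⟨hz, h1, h2⟩, (hne y).mpr ⟨hy, h3, h4⟩, hzy, rfl⟩

theorem vx_eval (q : W n) (u w z y x : Fin (n + 1)) :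
    Function.update (Function.update (Bw q u w) z 0) y 2 x =
      if x = y then 2 else if x = z then 0 else if x = w then 2 else if x = u then 0 else Qc q x := by
  by_cases h1 : x = y
  · subst h1; simp
  · by_cases h2 : x = z
    · subst h2; simp [h1]
    · simp [h1, h2, Bw_eq]

/-- the vertex determines the zero places -/
theorem vx_zero_place (q : W n) {u w z y x : Fin (n + 1)} (hx : Qc q x = 1)
    (h : Function.update (Function.update (Bw q u w) z 0) y 2 x = 0) : x = u ∨ x = z := by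
  rw [vx_eval] at h
  by_cases h1 : x = y
  · rw [if_pos h1] at h; exact absurd h (by decide)
  · rw [if_neg h1] at h
    by_cases h2 : x = z
    · exact Or.inr h2
    · rw [if_neg h2] at h
      by_cases h3 : x = w
      · rw [if_pos h3] at h; exact absurd h (by decide)
      · rw [if_neg h3] at h
        by_cases h4 : x = u
        · exact Or.inl h4
        · rw [if_neg h4, hx] at h; exact absurd h (by decide)

theorem vx_two_place (q : W n) {u w z y x : Fin (n + 1)} (hx : Qc q x = 1)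
    (h : Function.update (Function.update (Bw q u w) z 0) y 2 x = 2) : x = w ∨ x = y := by
  rw [vx_eval] at h
  by_cases h1 : x = y
  · exact Or.inr h1
  · rw [if_neg h1] at h
    by_cases h2 : x = z
    · rw [if_pos h2] at h; exact absurd h (by decide)
    · rw [if_neg h2] at h
      by_cases h3 : x = w
      · exact Or.inl h3
      · rw [if_neg h3] at h
        by_cases h4 : x = u
        · rw [if_pos h4] at h; exact absurd h (by decide)
        · rw [if_neg h4, hx] at h; exact absurd h (by decide)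

/-- the letter 0 moves, the vertex is kept -/
theorem vx_move_zero (q : W n) {u w : Fin (n + 1)} (hu : Qc q u = 1)
    (huw : u ≠ w) {v : W (n + 1)} (hv : IsVx (Bw q u w) v) {u' : Fin (n + 1)} (hu' : Qc q u' = 1)
    (h0 : v u' = 0) : u' ≠ w ∧ IsVx (Bw q u' w) v := by
  obtain ⟨z, y, hz, hy, hzy, h1, h2, h3, h4, rfl⟩ := (vx_Bw q huw).mp hv
  rcases vx_zero_place q hu' h0 with rfl | rfl
  · exact ⟨huw, hv⟩
  · refine ⟨h2, (vx_Bw q h2).mpr ⟨u, y, hu, hy, h3.symm, h1.symm, huw, hzy.symm, h4, ?_⟩⟩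
    funext x
    rw [vx_eval, vx_eval]
    by_cases e1 : x = y
    · simp [e1]
    · by_cases e2 : x = w
      · subst e2; simp [e1, huw.symm, h2.symm]
      · by_cases e3 : x = u
        · subst e3; simp [e1, e2]
        · simp [e1, e2, e3]

/-- the letter 2 moves, the vertex is kept -/
theorem vx_move_two (q : W n) {u w : Fin (n + 1)} (hw : Qc q w = 1)
    (huw : u ≠ w) {v : W (n + 1)} (hv : IsVx (Bw q u w) v) {w' : Fin (n + 1)} (hw' : Qc q w' = 1)
    (h0 : v w' = 2) : u ≠ w' ∧ IsVx (Bw q u w') v := by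
  obtain ⟨z, y, hz, hy, hzy, h1, h2, h3, h4, rfl⟩ := (vx_Bw q huw).mp hv
  rcases vx_two_place q hw' h0 with rfl | rfl
  · exact ⟨huw, hv⟩
  · refine ⟨h3.symm, (vx_Bw q h3.symm).mpr ⟨z, w, hz, hw, h2, h1, hzy, huw.symm, h4.symm, ?_⟩⟩
    funext x
    rw [vx_eval, vx_eval]
    by_cases e1 : x = w
    · subst e1; simp [h2.symm, h4.symm]
    · by_cases e2 : x = z
      · subst e2; simp [e1, hzy]
      · by_cases e3 : x = w'
        · subst e3; simp [e2]
        · simp [e1, e2, e3]

theorem vx_up {h : W n} {v : W (n + 1)} :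
    IsVx (up h) v ↔ ∃ v1, IsVx h v1 ∧ v = up v1 := by
  constructor
  · rintro ⟨z, y, hz, hy, hzy, rfl⟩
    have hz0 : z ≠ 0 := by rintro rfl; rw [up_zero] at hz; exact absurd hz (by decide)
    have hy0 : y ≠ 0 := by rintro rfl; rw [up_zero] at hy; exact absurd hy (by decide)
    obtain ⟨z, rfl⟩ := Fin.exists_succ_eq.mpr hz0
    obtain ⟨y, rfl⟩ := Fin.exists_succ_eq.mpr hy0
    refine ⟨Function.update (Function.update h z 0) y 2, ⟨z, y, hz, hy,
      fun e => hzy (by rw [e]), rfl⟩, ?_⟩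
    funext x
    refine Fin.cases ?_ (fun t => ?_) x
    · rw [up_zero, Function.update_of_ne (Fin.succ_ne_zero y).symm,
        Function.update_of_ne (Fin.succ_ne_zero z).symm, up_zero]
    · rw [up_succ]
      by_cases e1 : t = y
      · subst e1; simp
      · by_cases e2 : t = z
        · subst e2; simp [e1]
        · simp [e1, e2, up_succ]
  · rintro ⟨v1, ⟨z, y, hz, hy, hzy, rfl⟩, rfl⟩
    refine ⟨z.succ, y.succ, by rw [up_succ]; exact hz, by rw [up_succ]; exact hy,
      fun e => hzy (Fin.succ_inj.mp e), ?_⟩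
    funext x
    refine Fin.cases ?_ (fun t => ?_) x
    · rw [up_zero, Function.update_of_ne (Fin.succ_ne_zero y).symm,
        Function.update_of_ne (Fin.succ_ne_zero z).symm, up_zero]
    · rw [up_succ]
      by_cases e1 : t = y
      · subst e1; simp
      · by_cases e2 : t = z
        · subst e2; simp [e1]
        · simp [e1, e2, up_succ]

theorem vx_up_iff {h v1 : W n} : IsVx (up h) (up v1) ↔ IsVx h v1 := by
  rw [vx_up]
  constructor
  · rintro ⟨v2, hv, e⟩; rw [up_inj e]; exact hv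
  · intro hv; exact ⟨v1, hv, rfl⟩

/-- the words of the block with a vertex -/
theorem path_Bw {M : Finset (W n)} {q : W n} (hF : Full M q) {v : W (n + 1)}
    {u w u' w' : Fin (n + 1)} (hu : Qc q u = 1) (hw : Qc q w = 1) (hu' : Qc q u' = 1)
    (hw' : Qc q w' = 1) (h1 : u ≠ w) (h0 : u ≠ 0) (h0' : u' ≠ 0)
    (hv : IsVx (Bw q u w) v) (e0 : v u' = 0) (e2 : v w' = 2) :
    Relation.ReflTransGen (nbv (stk M q) v) (Bw q u w) (Bw q u' w') := by
  obtain ⟨h2, hv2⟩ := vx_move_zero q hu h1 hv hu' e0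
  obtain ⟨h3, hv3⟩ := vx_move_two q hw h2 hv2 hw' e2
  have s1 : Relation.ReflTransGen (nbv (stk M q) v) (Bw q u w) (Bw q u' w) := by
    by_cases e : u = u'
    · subst e; exact Relation.ReflTransGen.refl
    · refine Relation.ReflTransGen.single ⟨⟨stk_Bw hF hu' hw h2 h0', u', u, ?_, ?_,
        Bw_move_zero q hu hu' h1 h2 e⟩, hv, hv2⟩
      · rw [Bw_other q (Ne.symm e) h2, hu']
      · rw [Bw_zero q h1]; decide
  refine s1.trans ?_
  by_cases e : w = w'
  · subst e; exact Relation.ReflTransGen.refl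
  · refine Relation.ReflTransGen.single ⟨⟨stk_Bw hF hu' hw' h3 h0', w', w, ?_, ?_,
      Bw_move_two q hw hw' h2 h3 e⟩, hv2, hv3⟩
    · rw [Bw_other q h3.symm (Ne.symm e), hw']
    · rw [Bw_two]; decide

/-- the vertices of a cell word -/
theorem vx_cell {q : W n} {w : Fin n} {v1 : W n}
    (hv : IsVx (Function.update q w 2) v1) : ∃ z, q z = 1 ∧ z ≠ w ∧ v1 z = 0 ∧
      (∀ x, q x = 1 → v1 x = 0 → x = z) ∧ IsVx (Bw q z.succ w.succ) (up v1) := by
  obtain ⟨z, y, hz, hy, hzy, rfl⟩ := hv
  have hzw : z ≠ w := by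
    rintro rfl; rw [Function.update_self] at hz; exact absurd hz (by decide)
  have hyw : y ≠ w := by
    rintro rfl; rw [Function.update_self] at hy; exact absurd hy (by decide)
  rw [Function.update_of_ne hzw] at hz
  rw [Function.update_of_ne hyw] at hy
  refine ⟨z, hz, hzw, ?_, ?_, ?_⟩
  · rw [Function.update_of_ne hzy, Function.update_self]
  · intro x hx h0
    by_contra hne
    by_cases e1 : x = y
    · subst e1; rw [Function.update_self] at h0; exact absurd h0 (by decide)
    · rw [Function.update_of_ne e1, Function.update_of_ne hne] at h0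
      by_cases e2 : x = w
      · subst e2; rw [Function.update_self] at h0; exact absurd h0 (by decide)
      · rw [Function.update_of_ne e2, hx] at h0; exact absurd h0 (by decide)
  · have hs : z.succ ≠ w.succ := fun e => hzw (Fin.succ_inj.mp e)
    refine (vx_Bw q hs).mpr ⟨0, y.succ, Qc_zero q, by rw [Qc_succ]; exact hy,
      (Fin.succ_ne_zero y).symm, (Fin.succ_ne_zero z).symm, (Fin.succ_ne_zero w).symm,
      fun e => hzy (Fin.succ_inj.mp e).symm, fun e => hyw (Fin.succ_inj.mp e), ?_⟩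
    funext x
    rw [vx_eval]
    refine Fin.cases ?_ (fun t => ?_) x
    · rw [up_zero]; simp [(Fin.succ_ne_zero y).symm]
    · rw [up_succ]
      by_cases e1 : t = y
      · subst e1; simp
      · by_cases e2 : t = z
        · subst e2; simp [e1, hzw, Fin.succ_ne_zero]
        · by_cases e3 : t = w
          · subst e3; simp [e1, e2, Fin.succ_ne_zero]
          · simp [e1, e2, e3, Fin.succ_ne_zero, Qc_succ]

/-- the correspondence of the words with a vertex -/
def Rr (q v1 : W n) (h : W n) (g : W (n + 1)) : Prop :=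
  (¬ Cell q h ∧ g = up h) ∨
    ∃ u w, q u = 1 ∧ q w = 1 ∧ u ≠ w ∧ v1 u = 0 ∧ h = Function.update q w 2 ∧
      g = Bw q u.succ w.succ

theorem upd_two_inj {q : W n} {w w' : Fin n} (hw : q w = 1)
    (e : Function.update q w 2 = Function.update q w' 2) : w = w' := by
  by_contra hne
  have := congrFun e w
  rw [Function.update_self, Function.update_of_ne hne, hw] at this
  exact absurd this (by decide)

theorem Rr_ex {q v1 h : W n} (hv : IsVx h v1) : ∃ g, Rr q v1 h g := by
  by_cases hc : Cell q h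
  · obtain ⟨w, hw, rfl⟩ := hc
    obtain ⟨z, hz, hzw, h0, -, -⟩ := vx_cell hv
    exact ⟨_, Or.inr ⟨z, w, hz, hw, hzw, h0, rfl, rfl⟩⟩
  · exact ⟨_, Or.inl ⟨hc, rfl⟩⟩

theorem Rr_uniq {q v1 h : W n} (hv : IsVx h v1) {g g' : W (n + 1)} (H : Rr q v1 h g)
    (H' : Rr q v1 h g') : g = g' := by
  rcases H with ⟨hn, rfl⟩ | ⟨u, w, hu, hw, huw, h0, rfl, rfl⟩
  · rcases H' with ⟨_, rfl⟩ | ⟨u', w', hu', hw', huw', h0', rfl, rfl⟩
    · rfl
    · exact absurd ⟨w', hw', rfl⟩ hn
  · rcases H' with ⟨hn', _⟩ | ⟨u', w', hu', hw', huw', h0', e, rfl⟩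
    · exact absurd ⟨w, hw, rfl⟩ hn'
    · obtain ⟨z, hz, hzw, hz0, hzu, -⟩ := vx_cell hv
      rw [upd_two_inj hw e, hzu u hu h0, hzu u' hu' h0']

theorem Rr_vx {q v1 h : W n} (hv : IsVx h v1) {g : W (n + 1)} (H : Rr q v1 h g) :
    IsVx g (up v1) := by
  rcases H with ⟨hn, rfl⟩ | ⟨u, w, hu, hw, huw, h0, rfl, rfl⟩
  · exact vx_up_iff.mpr hv
  · obtain ⟨z, hz, hzw, hz0, hzu, hv'⟩ := vx_cell hv
    rw [hzu u hu h0]; exact hv'

theorem Rr_mem {M : Finset (W n)} {q v1 h : W n} (hF : Full M q) (hM : h ∈ M)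
    {g : W (n + 1)} (H : Rr q v1 h g) : g ∈ stk M q := by
  rcases H with ⟨hn, rfl⟩ | ⟨u, w, hu, hw, huw, h0, rfl, rfl⟩
  · exact stk_up hF hM hn
  · exact stk_Bw hF (by rw [Qc_succ]; exact hu) (by rw [Qc_succ]; exact hw)
      (fun e => huw (Fin.succ_inj.mp e)) (Fin.succ_ne_zero u)

theorem nbv_symm {M : Finset (W n)} {v h g : W n} (hM : h ∈ M) (H : nbv M v h g) :
    nbv M v g h := ⟨nb_symm hM H.1, H.2.2, H.2.1⟩

/-- from a cell word to a word outside the cell -/
theorem step_cell {M : Finset (W n)} {b : ℕ} {q v1 h h' : W n} (hG : Good M b) (hF : Full M q)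
    (H : nbv M v1 h h') (hc : Cell q h) (hn : ¬ Cell q h') {g g' : W (n + 1)}
    (R : Rr q v1 h g) (R' : Rr q v1 h' g') (hM : h ∈ M) :
    nbv (stk M q) (up v1) g' g := by
  have hv := Rr_vx H.2.1 R
  have hv' := Rr_vx H.2.2 R'
  have hgm := Rr_mem hF hM R
  rcases R with ⟨hn1, -⟩ | ⟨u, w, hu, hw, huw, h0, rfl, rfl⟩
  · exact absurd hc hn1
  · rcases R' with ⟨-, rfl⟩ | ⟨u', w', hu', hw', huw', h0', rfl, rfl⟩
    · obtain ⟨k, l, hk, hkw, hl, rfl⟩ := nb_cell hG hF hw H.1 hn
      have hkl : k ≠ l := by rintro rfl; rw [hk] at hl; exact absurd hl (by decide)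
      have hlw : l ≠ w := by rintro rfl; rw [hw] at hl; exact absurd hl (by decide)
      have hk0 : v1 k = 0 := by
        obtain ⟨z, y, hz, hy, hzy, e⟩ := H.2.2
        have hkz : k ≠ z := by
          rintro rfl
          rw [sw_left, Function.update_of_ne hlw, hl] at hz
          exact absurd hz (by decide)
        have hky : k ≠ y := by
          rintro rfl
          rw [sw_left, Function.update_of_ne hlw, hl] at hy
          exact absurd hy (by decide)
        rw [e, Function.update_of_ne hky, Function.update_of_ne hkz, sw_left,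
          Function.update_of_ne hlw, hl]
      obtain ⟨z, hz, hzw, hz0, hzu, -⟩ := vx_cell H.2.1
      have e1 : u = z := hzu u hu h0
      have e2 : k = z := hzu k hk hk0
      subst e1
      subst e2
      refine ⟨⟨hgm, l.succ, 0, ?_, ?_, Bw_of_nb_cell q hk hkw hw hl⟩, hv', hv⟩
      · rw [up_succ, sw_right, Function.update_of_ne hkw, hk]
      · rw [up_zero]; decide
    · exact absurd ⟨w', hw', rfl⟩ hn

/-- one step -/
theorem step_all {M : Finset (W n)} {b : ℕ} {q v1 h h' : W n} (hG : Good M b) (hF : Full M q)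
    (H : nbv M v1 h h') (hM : h ∈ M) {g g' : W (n + 1)} (R : Rr q v1 h g)
    (R' : Rr q v1 h' g') : Relation.ReflTransGen (nbv (stk M q) (up v1)) g g' := by
  by_cases hc : Cell q h
  · by_cases hc' : Cell q h'
    · rcases R with ⟨hn1, -⟩ | ⟨u, w, hu, hw, huw, h0, rfl, rfl⟩
      · exact absurd hc hn1
      · have hv := Rr_vx H.2.1 (Or.inr ⟨u, w, hu, hw, huw, h0, rfl, rfl⟩ : Rr q v1 _ _)
        rcases R' with ⟨hn1, -⟩ | ⟨u', w', hu', hw', huw', h0', rfl, rfl⟩
        · exact absurd hc' hn1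
        · have e2 : v1 w' = 2 := by
            obtain ⟨z, y, hz, hy, hzy, e⟩ := H.2.2
            have hkz : w' ≠ z := by
              rintro rfl
              rw [Function.update_self] at hz
              exact absurd hz (by decide)
            by_cases hky : w' = y
            · rw [e, hky, Function.update_self]
            · rw [e, Function.update_of_ne hky, Function.update_of_ne hkz, Function.update_self]
          exact path_Bw hF (by rw [Qc_succ]; exact hu) (by rw [Qc_succ]; exact hw)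
            (by rw [Qc_succ]; exact hu') (by rw [Qc_succ]; exact hw')
            (fun e => huw (Fin.succ_inj.mp e)) (Fin.succ_ne_zero u) (Fin.succ_ne_zero u') hv
            (by rw [up_succ]; exact h0') (by rw [up_succ]; exact e2)
    · exact Relation.ReflTransGen.single (nbv_symm (Rr_mem hF H.1.1 R')
        (step_cell hG hF H hc hc' R R' hM))
  · by_cases hc' : Cell q h'
    · exact Relation.ReflTransGen.single (step_cell hG hF (nbv_symm hM H) hc' hc R' R H.1.1)
    · have hg := Rr_mem hF H.1.1 R'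
      have hv := Rr_vx H.2.1 R
      have hv' := Rr_vx H.2.2 R'
      rcases R with ⟨-, rfl⟩ | ⟨u, w, hu, hw, huw, h0, rfl, rfl⟩
      · rcases R' with ⟨-, rfl⟩ | ⟨u', w', hu', hw', huw', h0', rfl, rfl⟩
        · obtain ⟨⟨_, k, l, hk, hl, rfl⟩, _, _⟩ := H
          exact Relation.ReflTransGen.single ⟨⟨hg, k.succ, l.succ, by rw [up_succ]; exact hk,
            by rw [up_succ]; exact hl, up_sw h k l⟩, hv, hv'⟩
        · exact absurd ⟨w', hw', rfl⟩ hc'
      · exact absurd ⟨w, hw, rfl⟩ hc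

theorem path_all {M : Finset (W n)} {b : ℕ} {q v1 h h' : W n} (hG : Good M b) (hF : Full M q)
    (hp : Relation.ReflTransGen (nbv M v1) h h') (hv' : IsVx h' v1) {g' : W (n + 1)}
    (R' : Rr q v1 h' g') : h ∈ M → ∀ g : W (n + 1), Rr q v1 h g →
    Relation.ReflTransGen (nbv (stk M q) (up v1)) g g' := by
  induction hp using Relation.ReflTransGen.head_induction_on with
  | refl =>
    intro _ g R
    rw [Rr_uniq hv' R R']
  | @head a d hab _ ih =>
    intro haM g R
    obtain ⟨g1, R1⟩ := Rr_ex (q := q) hab.2.2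
    exact (step_all hG hF hab haM R R1).trans (ih hab.1.1 g1 R1)

/-- every word of the stacked set with a vertex is obtained -/
theorem Rr_onto {M : Finset (W n)} {q v1 : W n} (hF : Full M q) {g : W (n + 1)}
    (hg : g ∈ stk M q) (hv : IsVx g (up v1)) : ∃ h ∈ M, IsVx h v1 ∧ Rr q v1 h g := by
  rcases (mem_stk M q hF g).mp hg with ⟨h, hM, hn, rfl⟩ | ⟨u, w, hu, hw, huw, hu0, rfl⟩
  · exact ⟨h, hM, vx_up_iff.mp hv, Or.inl ⟨hn, rfl⟩⟩
  · have h00 : (up v1) 0 = 0 := up_zero v1
    have hv0 := hv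
    obtain ⟨z, y, hz, hy, hzy, h1, h2, h3, h4, e⟩ := (vx_Bw q huw).mp hv
    rw [e] at h00
    have hz0 : (0 : Fin (n + 1)) = z := by
      rcases vx_zero_place q (Qc_zero q) h00 with h | h
      · exact absurd h.symm hu0
      · exact h
    subst hz0
    obtain ⟨w', rfl⟩ := Fin.exists_succ_eq.mpr h2.symm
    obtain ⟨u', rfl⟩ := Fin.exists_succ_eq.mpr hu0
    obtain ⟨y', rfl⟩ := Fin.exists_succ_eq.mpr hzy.symm
    have hu'w' : u' ≠ w' := fun e => huw (by rw [e])
    have hy'u' : y' ≠ u' := fun e => h3 (by rw [e])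
    have hy'w' : y' ≠ w' := fun e => h4 (by rw [e])
    rw [Qc_succ] at hu hw hy
    have hv1 : ∀ t, v1 t = if t = y' then 2 else if t = w' then 2 else if t = u' then 0 else q t := by
      intro t
      have := congrFun e t.succ
      rw [up_succ, vx_eval] at this
      rw [this]
      simp [Fin.succ_ne_zero, Qc_succ]
    refine ⟨Function.update q w' 2, hF.2 w' hw, ⟨u', y', ?_, ?_, hy'u'.symm, ?_⟩,
      Or.inr ⟨u', w', hu, hw, hu'w', ?_, rfl, rfl⟩⟩
    · rw [Function.update_of_ne hu'w']; exact hu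
    · rw [Function.update_of_ne hy'w']; exact hy
    · funext t
      rw [hv1]
      by_cases e1 : t = y'
      · subst e1; simp
      · by_cases e2 : t = u'
        · subst e2; simp [e1, hu'w']
        · by_cases e3 : t = w'
          · subst e3; simp [e1, e2]
          · simp [e1, e2, e3]
    · rw [hv1]; simp [hy'u'.symm, hu'w']

theorem pf_SL (h0 : T_SA) : T_SL := by
  have _ := h0
  intro n b M q hG hF v h hh g hg hvh hvg
  by_cases hv0 : v 0 = 0
  · have hv : v = up (fun t => v t.succ) := by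
      funext x
      refine Fin.cases ?_ (fun t => ?_) x
      · rw [hv0, up_zero]
      · rw [up_succ]
    rw [hv] at hvh hvg ⊢
    obtain ⟨a, haM, hva, Ra⟩ := Rr_onto hF hh hvh
    obtain ⟨c, hcM, hvc, Rc⟩ := Rr_onto hF hg hvg
    exact path_all hG hF (hG.link _ a haM c hcM hva hvc) hvc Rc haM _ Ra
  · have key : ∀ f ∈ stk M q, IsVx f v → ∃ u w, Qc q u = 1 ∧ Qc q w = 1 ∧ u ≠ w ∧ u ≠ 0 ∧
        f = Bw q u w := by
      intro f hf hvf
      rcases (mem_stk M q hF f).mp hf with ⟨a, ha, hn, rfl⟩ | H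
      · obtain ⟨v1, -, rfl⟩ := vx_up.mp hvf
        exact absurd (up_zero v1) hv0
      · exact H
    obtain ⟨u, w, hu, hw, huw, hu0, rfl⟩ := key h hh hvh
    obtain ⟨u', w', hu', hw', huw', hu0', rfl⟩ := key g hg hvg
    obtain ⟨z, y, hz, hy, hzy, h1, h2, h3, h4, e⟩ := (vx_Bw q huw').mp hvg
    refine path_Bw hF hu hw hu' hw' huw hu0 hu0' hvh ?_ ?_
    · rw [e, vx_eval]; simp [h1.symm, h3.symm, huw']
    · rw [e, vx_eval]; simp [h2.symm]

end Pool.Agent.H65.RHX
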