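import Pool.Agent.H54.RH.Targets

/-!
# MP_def5ca_co: words of the block of a cell (rows of the board rhx)
-/

set_option autoImplicit false

namespace Pool.Agent.H65.RHX

open Pool.Agent.H54.RH

variable {n : ℕ}

/-- the word with one more active place -/
def Qc (q : W n) : W (n + 1) := Fin.cons 1 q

/-- the word of the block with the letter 0 at `u` and the letter 2 at `w` -/
def Bw (q : W n) (u w : Fin (n + 1)) : W (n + 1) :=
  Function.update (Function.update (Qc q) u 0) w 2

theorem Qc_zero (q : W n) : Qc q 0 = 1 := rfl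
theorem Qc_succ (q : W n) (t : Fin n) : Qc q t.succ = q t := rfl
theorem up_zero (q : W n) : up q 0 = 0 := rfl
theorem up_succ (q : W n) (t : Fin n) : up q t.succ = q t := rfl

theorem up_inj {h g : W n} (e : up h = up g) : h = g := by
  funext t
  have := congrFun e t.succ
  simpa [up_succ] using this

theorem Bw_two (q : W n) (u w : Fin (n + 1)) : Bw q u w w = 2 := by simp [Bw]

theorem Bw_zero (q : W n) {u w : Fin (n + 1)} (h : u ≠ w) : Bw q u w u = 0 := by
  simp [Bw, Function.update_of_ne h]

theorem Bw_other (q : W n) {u w x : Fin (n + 1)} (h : x ≠ u) (h' : x ≠ w) :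
    Bw q u w x = Qc q x := by
  simp [Bw, Function.update_of_ne h, Function.update_of_ne h']

theorem Bw_eq (q : W n) (u w x : Fin (n + 1)) :
    Bw q u w x = if x = w then 2 else if x = u then 0 else Qc q x := by
  by_cases h : x = w
  · subst h; simp [Bw_two]
  · by_cases h' : x = u
    · subst h'; simp [Bw_zero q h, h]
    · simp [Bw_other q h' h, h, h']

/-- the words of the block -/
theorem mem_blk (q : W n) (hq : (act q).card = 4) (g : W (n + 1)) :
    g ∈ blk q ↔ ∃ u w, Qc q u = 1 ∧ Qc q w = 1 ∧ u ≠ w ∧ g = Bw q u w := by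
  classical
  have hA : (act (Qc q)).card = 5 := by
    have h1 : act (Qc q) = insert 0 ((act q).map (Fin.succEmb n)) := by
      ext x
      refine Fin.cases ?_ (fun t => ?_) x
      · simp [act, Qc_zero]
      · simp [act, Qc_succ, Fin.succ_ne_zero]
    rw [h1, Finset.card_insert_of_notMem, Finset.card_map, hq]
    simp [Fin.succ_ne_zero]
  have h2 : (two (Qc q)).card = (two q).card := by
    have h1 : two (Qc q) = (two q).map (Fin.succEmb n) := by
      ext x
      refine Fin.cases ?_ (fun t => ?_) x
      · simp [two, Qc_zero, Fin.succ_ne_zero]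
      · simp [two, Qc_succ]
    rw [h1, Finset.card_map]
  constructor
  · intro hg
    simp only [blk, Finset.mem_filter, Finset.mem_univ, true_and] at hg
    obtain ⟨hoff, hact, htwo⟩ := hg
    have hoff' : ∀ x, Qc q x ≠ 1 → g x = Qc q x := by
      intro x
      refine Fin.cases ?_ (fun t => ?_) x
      · intro h; exact absurd (Qc_zero q) h
      · intro h; rw [Qc_succ] at h ⊢; exact hoff t h
    have hsub : act g ⊆ act (Qc q) := by
      intro x hx
      simp only [act, Finset.mem_filter, Finset.mem_univ, true_and] at hx ⊢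
      by_contra hne
      exact hne (by rw [← hoff' x hne]; exact hx)
    have hsub2 : two (Qc q) ⊆ two g := by
      intro x hx
      simp only [two, Finset.mem_filter, Finset.mem_univ, true_and] at hx ⊢
      rw [hoff' x (by rw [hx]; decide), hx]
    have hc1 : (act (Qc q) \ act g).card = 2 := by
      rw [Finset.card_sdiff_of_subset hsub, hA, hact]
    have hc2 : (two g \ two (Qc q)).card = 1 := by
      rw [Finset.card_sdiff_of_subset hsub2, htwo, h2]; omega
    obtain ⟨w, hw⟩ := Finset.card_eq_one.mp hc2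
    have hww : w ∈ two g \ two (Qc q) := by rw [hw]; simp
    simp only [two, Finset.mem_sdiff, Finset.mem_filter, Finset.mem_univ, true_and] at hww
    have hwA : Qc q w = 1 := by
      by_contra hne
      exact hww.2 (by rw [← hoff' w hne]; exact hww.1)
    have hwS : w ∈ act (Qc q) \ act g := by
      simp only [act, Finset.mem_sdiff, Finset.mem_filter, Finset.mem_univ, true_and]
      exact ⟨hwA, by rw [hww.1]; decide⟩
    have hc3 : ((act (Qc q) \ act g).erase w).card = 1 := by
      rw [Finset.card_erase_of_mem hwS, hc1]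
    obtain ⟨u, hu⟩ := Finset.card_eq_one.mp hc3
    have huu : u ∈ (act (Qc q) \ act g).erase w := by rw [hu]; simp
    simp only [act, Finset.mem_erase, Finset.mem_sdiff, Finset.mem_filter, Finset.mem_univ,
      true_and] at huu
    have hu2 : g u ≠ 2 := by
      intro h
      have : u ∈ two g \ two (Qc q) := by
        simp only [two, Finset.mem_sdiff, Finset.mem_filter, Finset.mem_univ, true_and]
        exact ⟨h, by rw [huu.2.1]; decide⟩
      rw [hw] at this
      exact huu.1 (by simpa using this)
    refine ⟨u, w, huu.2.1, hwA, huu.1, ?_⟩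
    funext x
    rw [Bw_eq]
    split_ifs with hx1 hx2
    · rw [hx1]; exact hww.1
    · rw [hx2]
      have h01 := huu.2.2
      have h02 := hu2
      revert h01 h02
      generalize g u = c
      revert c
      decide
    · by_cases hx3 : Qc q x = 1
      · rw [hx3]
        by_contra hne
        have : x ∈ (act (Qc q) \ act g).erase w := by
          simp only [act, Finset.mem_erase, Finset.mem_sdiff, Finset.mem_filter, Finset.mem_univ,
            true_and]
          exact ⟨hx1, hx3, hne⟩
        rw [hu] at this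
        exact hx2 (by simpa using this)
      · exact hoff' x hx3
  · rintro ⟨u, w, hu, hw, huw, rfl⟩
    simp only [blk, Finset.mem_filter, Finset.mem_univ, true_and]
    refine ⟨?_, ?_, ?_⟩
    · intro t ht
      rw [Bw_other, Qc_succ]
      · rintro rfl; exact ht (by rw [← Qc_succ q t]; exact hu)
      · rintro rfl; exact ht (by rw [← Qc_succ q t]; exact hw)
    · have : act (Bw q u w) = ((act (Qc q)).erase u).erase w := by
        ext x
        simp only [act, Finset.mem_erase, Finset.mem_filter, Finset.mem_univ, true_and, Bw_eq]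
        split_ifs with h1 h2
        · simp [h1]
        · simp [h2]
        · simp [h1, h2]
      rw [this, Finset.card_erase_of_mem, Finset.card_erase_of_mem, hA]
      · simp [act, hu]
      · simp [act, hw, huw.symm]
    · have : two (Bw q u w) = insert w (two (Qc q)) := by
        ext x
        simp only [two, Finset.mem_insert, Finset.mem_filter, Finset.mem_univ, true_and, Bw_eq]
        split_ifs with h1 h2
        · simp [h1]
        · simp only [h2, huw, false_or, hu]; decide
        · simp [h1]
      rw [this, Finset.card_insert_of_notMem, h2]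
      simp only [two, Finset.mem_filter, Finset.mem_univ, true_and, hw]
      decide

theorem Bw_at_zero (q : W n) {u w : Fin (n + 1)} (h : u ≠ w) : Bw q u w 0 = 0 ↔ u = 0 := by
  rw [Bw_eq]
  split_ifs with h1 h2
  · subst h1; exact ⟨fun h' => absurd h' (by decide), fun h' => absurd h' h⟩
  · simp [h2]
  · rw [Qc_zero]; exact ⟨fun h' => absurd h' (by decide), fun h' => absurd h'.symm h2⟩

/-- a word of the block with the letter 0 at the new place comes from the cell -/
theorem Bw_cell (q : W n) (w : Fin n) : Bw q 0 w.succ = up (Function.update q w 2) := by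
  funext x
  refine Fin.cases ?_ (fun t => ?_) x
  · rw [Bw_zero q (Fin.succ_ne_zero w).symm, up_zero]
  · rw [up_succ, Bw_eq]
    by_cases h : t = w
    · subst h; simp
    · simp [h, Qc_succ, Fin.succ_ne_zero]

/-- cell words -/
def Cell (q h : W n) : Prop := ∃ w, q w = 1 ∧ h = Function.update q w 2

/-- the elements of the stacked set -/
theorem mem_stk (M : Finset (W n)) (q : W n) (hF : Full M q) (g : W (n + 1)) :
    g ∈ stk M q ↔ (∃ h ∈ M, ¬ Cell q h ∧ g = up h) ∨
      ∃ u w, Qc q u = 1 ∧ Qc q w = 1 ∧ u ≠ w ∧ u ≠ 0 ∧ g = Bw q u w := by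
  rw [stk, Finset.mem_symmDiff, Finset.mem_image, mem_blk q hF.1]
  constructor
  · rintro (⟨⟨h, hM, rfl⟩, hn⟩ | ⟨⟨u, w, hu, hw, huw, rfl⟩, hn⟩)
    · refine Or.inl ⟨h, hM, ?_, rfl⟩
      rintro ⟨w, hw, rfl⟩
      exact hn ⟨0, w.succ, Qc_zero q, by rw [Qc_succ]; exact hw, (Fin.succ_ne_zero w).symm,
        (Bw_cell q w).symm⟩
    · refine Or.inr ⟨u, w, hu, hw, huw, ?_, rfl⟩
      rintro rfl
      obtain ⟨w', rfl⟩ := Fin.exists_succ_eq.mpr huw.symm
      rw [Qc_succ] at hw
      exact hn ⟨_, hF.2 w' hw, (Bw_cell q w').symm⟩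
  · rintro (⟨h, hM, hn, rfl⟩ | ⟨u, w, hu, hw, huw, hu0, rfl⟩)
    · refine Or.inl ⟨⟨h, hM, rfl⟩, ?_⟩
      rintro ⟨u, w, hu, hw, huw, he⟩
      have h0 : Bw q u w 0 = 0 := by rw [← he, up_zero]
      rw [Bw_at_zero q huw] at h0
      subst h0
      obtain ⟨w', rfl⟩ := Fin.exists_succ_eq.mpr huw.symm
      rw [Qc_succ] at hw
      rw [Bw_cell] at he
      exact hn ⟨w', hw, up_inj he⟩
    · refine Or.inr ⟨⟨u, w, hu, hw, huw, rfl⟩, ?_⟩
      rintro ⟨h, -, he⟩
      exact hu0 ((Bw_at_zero q huw).mp (by rw [← he, up_zero]))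

theorem stk_up {M : Finset (W n)} {q : W n} (hF : Full M q) {h : W n} (hM : h ∈ M)
    (hn : ¬ Cell q h) : up h ∈ stk M q := (mem_stk M q hF _).mpr (Or.inl ⟨h, hM, hn, rfl⟩)

theorem stk_Bw {M : Finset (W n)} {q : W n} (hF : Full M q) {u w : Fin (n + 1)} (hu : Qc q u = 1)
    (hw : Qc q w = 1) (huw : u ≠ w) (hu0 : u ≠ 0) : Bw q u w ∈ stk M q :=
  (mem_stk M q hF _).mpr (Or.inr ⟨u, w, hu, hw, huw, hu0, rfl⟩)

/-! ### Exchanges -/

theorem sw_left (h : W n) (k l : Fin n) : sw h k l k = h l := by simp [sw]

theorem sw_right (h : W n) (k l : Fin n) : sw h k l l = h k := by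
  by_cases e : l = k
  · subst e; simp [sw]
  · simp [sw, e]

theorem sw_off (h : W n) {k l x : Fin n} (h1 : x ≠ k) (h2 : x ≠ l) : sw h k l x = h x := by
  simp [sw, h1, h2]

theorem sw_sw (h : W n) (k l : Fin n) : sw (sw h k l) l k = h := by
  funext x
  by_cases h1 : x = l
  · subst h1; rw [sw_left, sw_left]
  · by_cases h2 : x = k
    · subst h2; rw [sw_right, sw_right]
    · rw [sw_off _ h1 h2, sw_off _ h2 h1]

theorem up_sw (h : W n) (k l : Fin n) : up (sw h k l) = sw (up h) k.succ l.succ := by
  funext x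
  refine Fin.cases ?_ (fun t => ?_) x
  · rw [up_zero, sw_off _ (Fin.succ_ne_zero k).symm (Fin.succ_ne_zero l).symm, up_zero]
  · rw [up_succ]
    simp only [sw, Fin.succ_inj, up_succ]

/-- the zero place moves -/
theorem Bw_move_zero (q : W n) {u u' w : Fin (n + 1)} (hu : Qc q u = 1) (_hu' : Qc q u' = 1)
    (h1 : u ≠ w) (h2 : u' ≠ w) (h3 : u ≠ u') : Bw q u' w = sw (Bw q u w) u' u := by
  funext x
  by_cases e1 : x = u'
  · subst e1; rw [sw_left, Bw_zero q h2, Bw_zero q h1]
  · by_cases e2 : x = u
    · subst e2; rw [sw_right, Bw_other q h3 h1, Bw_other q h3.symm h2, hu, _hu']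
    · rw [sw_off _ e1 e2]
      by_cases e3 : x = w
      · subst e3; rw [Bw_two, Bw_two]
      · rw [Bw_other q e1 e3, Bw_other q e2 e3]

/-- the place of the letter 2 moves -/
theorem Bw_move_two (q : W n) {u w w' : Fin (n + 1)} (_hw : Qc q w = 1) (_hw' : Qc q w' = 1)
    (h1 : u ≠ w) (h2 : u ≠ w') (h3 : w ≠ w') : Bw q u w' = sw (Bw q u w) w' w := by
  funext x
  by_cases e1 : x = w'
  · subst e1; rw [sw_left, Bw_two, Bw_two]
  · by_cases e2 : x = w
    · subst e2; rw [sw_right, Bw_other q h1.symm h3, Bw_other q h2.symm h3.symm, _hw, _hw']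
    · rw [sw_off _ e1 e2]
      by_cases e3 : x = u
      · subst e3; rw [Bw_zero q h1, Bw_zero q h2]
      · rw [Bw_other q e3 e1, Bw_other q e3 e2]

theorem nb_symm {M : Finset (W n)} {h g : W n} (hM : h ∈ M) (H : nb M h g) : nb M g h := by
  obtain ⟨-, k, l, hk, hl, rfl⟩ := H
  exact ⟨hM, l, k, by rw [sw_right]; exact hk, by rw [sw_left]; exact hl, (sw_sw h k l).symm⟩

/-- a neighbour of a cell word outside the cell: the letter 0 moves -/
theorem nb_cell {M : Finset (W n)} {b : ℕ} {q : W n} (hG : Good M b) (hF : Full M q) {w : Fin n}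
    (hw : q w = 1) {h : W n} (H : nb M (Function.update q w 2) h) (hn : ¬ Cell q h) :
    ∃ k l, q k = 1 ∧ k ≠ w ∧ q l = 0 ∧ h = sw (Function.update q w 2) k l := by
  obtain ⟨hM, k, l, hk, hl, rfl⟩ := H
  have hkw : k ≠ w := by
    rintro rfl
    rw [Function.update_self] at hk
    exact absurd hk (by decide)
  rw [Function.update_of_ne hkw] at hk
  refine ⟨k, l, hk, hkw, ?_, rfl⟩
  by_contra hl0
  have hl2 : Function.update q w 2 l = 2 := by
    by_cases e : l = w
    · subst e; rw [Function.update_self]
    · rw [Function.update_of_ne e] at hl ⊢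
      revert hl hl0
      generalize q l = c
      revert c
      decide
  have hwk : w ≠ k := hkw.symm
  have e1 : sw (Function.update q w 2) k w = Function.update q k 2 := by
    funext x
    by_cases e1 : x = k
    · subst e1; rw [sw_left, Function.update_self, Function.update_self]
    · by_cases e2 : x = w
      · subst e2; rw [sw_right, Function.update_of_ne hkw, Function.update_of_ne hwk, hk, hw]
      · rw [sw_off _ e1 e2, Function.update_of_ne e2, Function.update_of_ne e1]
  obtain ⟨l0, -, hl0u⟩ := hG.edge _ (hF.2 w hw) k (by rw [Function.update_of_ne hkw]; exact hk) 2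
    (by decide)
  have a1 : l = l0 := hl0u l ⟨hl2, hM⟩
  have a2 : w = l0 := hl0u w ⟨Function.update_self .., by rw [e1]; exact hF.2 k hk⟩
  have a3 : l = w := by rw [a1, a2]
  subst a3
  exact hn ⟨k, hk, e1⟩

/-- the word of the block next to a neighbour of a cell word -/
theorem Bw_of_nb_cell (q : W n) {k w l : Fin n} (_hk : q k = 1) (hkw : k ≠ w) (hw : q w = 1)
    (hl : q l = 0) :
    Bw q k.succ w.succ = sw (up (sw (Function.update q w 2) k l)) l.succ 0 := by
  have hlk : l ≠ k := by rintro rfl; rw [_hk] at hl; exact absurd hl (by decide)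
  have hlw : l ≠ w := by rintro rfl; rw [hw] at hl; exact absurd hl (by decide)
  have hs : k.succ ≠ w.succ := fun e => hkw (Fin.succ_inj.mp e)
  funext x
  refine Fin.cases ?_ (fun t => ?_) x
  · rw [sw_right, up_succ, sw_right, Function.update_of_ne hkw, _hk,
      Bw_other q (Fin.succ_ne_zero k).symm (Fin.succ_ne_zero w).symm, Qc_zero]
  · by_cases e1 : t = l
    · subst e1
      rw [sw_left, up_zero, Bw_other q (fun e => hlk (Fin.succ_inj.mp e))
        (fun e => hlw (Fin.succ_inj.mp e)), Qc_succ, hl]
    · rw [sw_off _ (fun e => e1 (Fin.succ_inj.mp e)) (Fin.succ_ne_zero t), up_succ]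
      by_cases e2 : t = k
      · subst e2
        rw [sw_left, Function.update_of_ne hlw, hl, Bw_zero q hs]
      · rw [sw_off _ e2 e1]
        by_cases e3 : t = w
        · subst e3; rw [Bw_two, Function.update_self]
        · rw [Function.update_of_ne e3, Bw_other q (fun e => e2 (Fin.succ_inj.mp e))
            (fun e => e3 (Fin.succ_inj.mp e)), Qc_succ]

end Pool.Agent.H65.RHX
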