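import Pool.Agent.H65.RHX.Base

/-!
# Row SC of the board rhx: the stacked set is connected
-/

set_option autoImplicit false

namespace Pool.Agent.H65.RHX

open Pool.Agent.H54.RH

variable {n : ℕ}

/-- a change of the letter 0 -/
theorem step_zero {M : Finset (W n)} {q : W n} (hF : Full M q) {u u' w : Fin (n + 1)}
    (hu : Qc q u = 1) (hu' : Qc q u' = 1) (hw : Qc q w = 1) (h1 : u ≠ w) (h2 : u' ≠ w)
    (h0' : u' ≠ 0) :
    Relation.ReflTransGen (nb (stk M q)) (Bw q u w) (Bw q u' w) := by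
  by_cases e : u = u'
  · subst e; exact Relation.ReflTransGen.refl
  · refine Relation.ReflTransGen.single ⟨stk_Bw hF hu' hw h2 h0', u', u, ?_, ?_,
      Bw_move_zero q hu hu' h1 h2 e⟩
    · rw [Bw_other q (Ne.symm e) h2, hu']
    · rw [Bw_zero q h1]; decide

/-- a change of the letter 2 -/
theorem step_two {M : Finset (W n)} {q : W n} (hF : Full M q) {u w w' : Fin (n + 1)}
    (hu : Qc q u = 1) (hw : Qc q w = 1) (hw' : Qc q w' = 1) (h1 : u ≠ w) (h2 : u ≠ w')
    (h0 : u ≠ 0) :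
    Relation.ReflTransGen (nb (stk M q)) (Bw q u w) (Bw q u w') := by
  by_cases e : w = w'
  · subst e; exact Relation.ReflTransGen.refl
  · refine Relation.ReflTransGen.single ⟨stk_Bw hF hu hw' h2 h0, w', w, ?_, ?_,
      Bw_move_two q hw hw' h1 h2 e⟩
    · rw [Bw_other q h2.symm (Ne.symm e), hw']
    · rw [Bw_two]; decide

theorem conn_Bw {M : Finset (W n)} {q : W n} (hF : Full M q) {u w u' w' : Fin (n + 1)}
    (hu : Qc q u = 1) (hw : Qc q w = 1) (hu' : Qc q u' = 1) (hw' : Qc q w' = 1)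
    (h1 : u ≠ w) (h2 : u' ≠ w') (h0 : u ≠ 0) (h0' : u' ≠ 0) :
    Relation.ReflTransGen (nb (stk M q)) (Bw q u w) (Bw q u' w') :=
  ((step_two hF hu hw (Qc_zero q) h1 h0 h0).trans
    (step_zero hF hu hu' (Qc_zero q) h0 h0' h0')).trans
    (step_two hF hu' (Qc_zero q) hw' h0' h2 h0')

/-- the words outside the cell are connected to the block -/
theorem conn_up {M : Finset (W n)} {b : ℕ} {q : W n} (hG : Good M b) (hF : Full M q)
    {c : W n} (hc : Cell q c) {h : W n} (hp : Relation.ReflTransGen (nb M) h c) :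
    h ∈ M → ¬ Cell q h → ∃ u w, Qc q u = 1 ∧ Qc q w = 1 ∧ u ≠ w ∧ u ≠ 0 ∧
      Relation.ReflTransGen (nb (stk M q)) (up h) (Bw q u w) := by
  induction hp using Relation.ReflTransGen.head_induction_on with
  | refl => exact fun _ hn => absurd hc hn
  | @head a d hab _ ih =>
    intro haM hna
    by_cases hd : Cell q d
    · obtain ⟨w, hw, rfl⟩ := hd
      obtain ⟨k, l, hk, hkw, hl, rfl⟩ := nb_cell hG hF hw (nb_symm haM hab) hna
      have hQk : Qc q k.succ = 1 := by rw [Qc_succ]; exact hk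
      have hQw : Qc q w.succ = 1 := by rw [Qc_succ]; exact hw
      have hs : k.succ ≠ w.succ := fun e => hkw (Fin.succ_inj.mp e)
      refine ⟨k.succ, w.succ, hQk, hQw, hs, Fin.succ_ne_zero k, Relation.ReflTransGen.single
        ⟨stk_Bw hF hQk hQw hs (Fin.succ_ne_zero k), l.succ, 0, ?_, ?_,
          Bw_of_nb_cell q hk hkw hw hl⟩⟩
      · rw [up_succ, sw_right, Function.update_of_ne hkw, hk]
      · rw [up_zero]; decide
    · obtain ⟨u, w, hu, hw, huw, hu0, hp⟩ := ih hab.1 hd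
      refine ⟨u, w, hu, hw, huw, hu0, Relation.ReflTransGen.head ?_ hp⟩
      obtain ⟨hdM, k, l, hk, hl, rfl⟩ := hab
      exact ⟨stk_up hF hdM hd, k.succ, l.succ, by rw [up_succ]; exact hk,
        by rw [up_succ]; exact hl, up_sw a k l⟩

theorem nb_rev {M : Finset (W n)} {h g : W n} (hM : h ∈ M)
    (hp : Relation.ReflTransGen (nb M) h g) : Relation.ReflTransGen (nb M) g h := by
  induction hp using Relation.ReflTransGen.head_induction_on with
  | refl => exact Relation.ReflTransGen.refl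
  | head hab _ ih => exact (ih hab.1).tail (nb_symm hM hab)

theorem pf_SC (h0 : T_SA) (h1 : T_SE) : T_SC := by
  have _ := h0
  have _ := h1
  intro n b M q hG hF
  have hne : (act q).Nonempty := by
    rw [← Finset.card_pos, hF.1]; norm_num
  obtain ⟨p, hp⟩ := hne
  simp only [act, Finset.mem_filter, Finset.mem_univ, true_and] at hp
  have hpQ : Qc q p.succ = 1 := by rw [Qc_succ]; exact hp
  have hb : Bw q p.succ 0 ∈ stk M q :=
    stk_Bw hF hpQ (Qc_zero q) (Fin.succ_ne_zero p) (Fin.succ_ne_zero p)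
  have key : ∀ h ∈ stk M q, Relation.ReflTransGen (nb (stk M q)) h (Bw q p.succ 0) := by
    intro h hh
    rcases (mem_stk M q hF h).mp hh with ⟨a, ha, hn, rfl⟩ | ⟨u, w, hu, hw, huw, hu0, rfl⟩
    · obtain ⟨u, w, hu, hw, huw, hu0, hpath⟩ := conn_up hG hF ⟨p, hp, rfl⟩
        (hG.conn a ha _ (hF.2 p hp)) ha hn
      exact hpath.trans (conn_Bw hF hu hw hpQ (Qc_zero q) huw (Fin.succ_ne_zero p) hu0
        (Fin.succ_ne_zero p))
    · exact conn_Bw hF hu hw hpQ (Qc_zero q) huw (Fin.succ_ne_zero p) hu0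
        (Fin.succ_ne_zero p)
  exact ⟨⟨_, hb⟩, fun h hh g hg => (key h hh).trans (nb_rev hg (key g hg))⟩

end Pool.Agent.H65.RHX
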